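import Pool.Agent.Helper78.AO.Goals
import Pool.Agent.Helper78.LM.As1
import Pool.Agent.Helper37.DT.PTR
import Pool.Agent.Helper3.DT.PTL

/-!
# Project AO, packet PTM: the runs are computed in polynomial time
-/

set_option autoImplicit false

namespace Pool.Agent.Helper16.AO

open Pool.Agent.Helper78.AO Pool.Agent.Helper81.CC
open Pool.Agent.Helper51.ZP (sz_bools)

variable (A : Machine) {γ : Type} [ToData γ]

theorem pt_act : PolyTime A.act := Pool.Agent.Helper78.LM.PT_of_comp A.act_poly

theorem pt_m : PolyTime A.m := Pool.Agent.Helper78.LM.PT_of_comp A.m_poly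

theorem pt_T : PolyTime A.T := Pool.Agent.Helper78.LM.PT_of_comp A.T_poly

theorem pt_act' {x : γ → List Bool} {i : γ → ℕ} {M : γ → Mem} {a : γ → List Bool}
    (hx : PolyTime x) (hi : PolyTime i) (hM : PolyTime M) (ha : PolyTime a) :
    PolyTime fun c => A.act (x c, i c, M c, a c) :=
  PolyTime.comp (g := A.act) (f := fun c => (x c, i c, M c, a c)) (pt_act A) (by fun_prop)

theorem pt_bd (k : ℕ) {x : γ → List Bool} (hx : PolyTime x) : PolyTime fun c => bd k (x c) := by
  unfold bd
  have h1 : PolyTime fun c => Nat.log 2 (x c).length :=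
    Pool.Agent.Helper3.DT.pt_log (PolyTime.length hx)
  fun_prop

/-! ### The bits read by a stage -/

/-- One reading step. -/
def stp (x : List Bool) (b : ℕ → Bool) (i : ℕ) (M : Mem) (a : List Bool) : List Bool :=
  if 4 ≤ A.act (x, i, M, a) then a ++ [b (A.act (x, i, M, a) - 4)] else a

theorem bits_eq (x : List Bool) (b : ℕ → Bool) (i : ℕ) (M : Mem) (k : ℕ) :
    bits A x b i M k = (stp A x b i M)^[k] [] := by
  induction k with
  | zero => rfl
  | succ k ih =>
    rw [Function.iterate_succ_apply', ← ih]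
    rfl

theorem length_bits (x : List Bool) (b : ℕ → Bool) (i : ℕ) (M : Mem) (k : ℕ) :
    (bits A x b i M k).length ≤ k := by
  induction k with
  | zero => simp [bits]
  | succ k ih =>
    rw [bits]
    split_ifs with h
    · rw [List.length_append, List.length_singleton]
      omega
    · omega

theorem pt_bits {x : γ → List Bool} {b : γ → ℕ → Bool} {i : γ → ℕ} {M : γ → Mem} {k : γ → ℕ}
    (hx : PolyTime x) (hb : PolyTime (fun z : γ × ℕ => b z.1 z.2)) (hi : PolyTime i)
    (hM : PolyTime M) (hk : PolyTime k) :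
    PolyTime fun c => bits A (x c) (b c) (i c) (M c) (k c) := by
  have h0 : PolyTime fun c => (stp A (x c) (b c) (i c) (M c))^[k c] [] := by
    refine PolyTime.iterate_bd (n := k) (s0 := fun _ => ([] : List Bool))
      (step := fun c a => stp A (x c) (b c) (i c) (M c) a) hk (by fun_prop) ?_
      (B := fun c => 4 * k c + 1) (((PBd.const 4).mul (PBd.nat hk)).add (PBd.const 1)) ?_
    · have h1 : PolyTime fun z : γ × List Bool => A.act (x z.1, i z.1, M z.1, z.2) :=
        pt_act' A (x := fun z : γ × List Bool => x z.1) (i := fun z => i z.1)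
          (M := fun z => M z.1) (a := fun z => z.2) (by fun_prop) (by fun_prop) (by fun_prop)
          (by fun_prop)
      have h2 : PolyTime fun z : γ × List Bool => b z.1 (A.act (x z.1, i z.1, M z.1, z.2) - 4) :=
        PolyTime.comp (g := fun z : γ × ℕ => b z.1 z.2)
          (f := fun z : γ × List Bool => (z.1, A.act (x z.1, i z.1, M z.1, z.2) - 4)) hb
          (by fun_prop)
      unfold stp
      exact PolyTime.itep (PolyTime.decide_le (by fun_prop) h1)
        (PolyTime.append (by fun_prop) (PolyTime.list_cons h2 (by fun_prop))) (by fun_prop)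
    · intro c j hj
      have h1 := length_bits A (x c) (b c) (i c) (M c) j
      have h2 := sz_bools ((stp A (x c) (b c) (i c) (M c))^[j] [])
      rw [← bits_eq] at h2 ⊢
      change sz (bits A (x c) (b c) (i c) (M c) j) ≤ _
      omega
  exact PolyTime.congr h0 fun c => (bits_eq A _ _ _ _ _).symm

/-! ### Literals -/

theorem pt_lit {x : γ → List Bool} {i : γ → ℕ} {M : γ → Mem} {a : γ → List Bool}
    (hx : PolyTime x) (hi : PolyTime i) (hM : PolyTime M) (ha : PolyTime a) :
    PolyTime fun c => lit A (x c) (i c) (M c) (a c) := by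
  unfold lit
  have h1 : PolyTime fun z : γ × ℕ => A.act (x z.1, i z.1, M z.1, (a z.1).take z.2) :=
    pt_act' A (x := fun z : γ × ℕ => x z.1) (i := fun z => i z.1) (M := fun z => M z.1)
      (a := fun z => (a z.1).take z.2) (by fun_prop) (by fun_prop) (by fun_prop) (by fun_prop)
  have h2 : PolyTime fun z : γ × ℕ => (a z.1).getD z.2 false :=
    PolyTime.getD (n := fun z : γ × ℕ => z.2) (l := fun z : γ × ℕ => a z.1)
      (d := fun _ => false) (by fun_prop) (by fun_prop) (by fun_prop)
  refine PolyTime.list_map (l := fun c => List.range (a c).length)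
    (f := fun c k => (A.act (x c, i c, M c, (a c).take k) - 4, (a c).getD k false))
    (by fun_prop) ?_
  exact PolyTime.pair (by fun_prop) h2

theorem pt_litm {x : γ → List Bool} {M : γ → Mem} (hx : PolyTime x) (hM : PolyTime M) :
    PolyTime fun c => litm A (x c) (M c) := by
  unfold litm
  have h1 : PolyTime fun z : γ × ℕ => (M z.1).getD z.2 (0, []) :=
    PolyTime.getD (n := fun z : γ × ℕ => z.2) (l := fun z : γ × ℕ => M z.1)
      (d := fun _ => ((0, []) : ℕ × List Bool)) (by fun_prop) (by fun_prop) (by fun_prop)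
  refine PolyTime.flatMap (l := fun c => List.range (M c).length)
    (f := fun c j => lit A (x c) ((M c).getD j (0, [])).1 ((M c).take j)
      ((M c).getD j (0, [])).2) (by fun_prop) ?_
  exact pt_lit A (x := fun z : γ × ℕ => x z.1) (i := fun z => ((M z.1).getD z.2 (0, [])).1)
    (M := fun z => (M z.1).take z.2) (a := fun z => ((M z.1).getD z.2 (0, [])).2)
    (by fun_prop) (PolyTime.fst h1) (by fun_prop) (PolyTime.snd h1)

theorem pt_nms {x : γ → List Bool} {l : γ → List (ℕ × Bool)} (hx : PolyTime x)
    (hl : PolyTime l) : PolyTime fun c => nms A (x c) (l c) := by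
  unfold nms
  refine Pool.Agent.Helper37.DT.pt_dedup ?_
  have hm : PolyTime fun c => A.m (x c) := PolyTime.comp (pt_m A) hx
  have hm' : PolyTime fun z : γ × ℕ => A.m (x z.1) :=
    PolyTime.comp (g := fun c => A.m (x c)) hm (by fun_prop)
  refine PolyTime.filter (f := fun c v => decide (v < A.m (x c)))
    (l := fun c => (l c).map fun p => p.1)
    (PolyTime.list_map (f := fun (_ : γ) (p : ℕ × Bool) => p.1) hl (by fun_prop)) ?_
  exact PolyTime.decide_lt (by fun_prop) hm'

theorem pt_okl {x : γ → List Bool} {K t : γ → ℕ} {h : γ → ℕ → ℕ} {l : γ → List (ℕ × Bool)}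
    (hx : PolyTime x) (hK : PolyTime K) (ht : PolyTime t)
    (hh : PolyTime (fun z : γ × ℕ => h z.1 z.2)) (hl : PolyTime l) :
    PolyTime fun c => okl A (x c) (K c) (t c) (h c) (l c) := by
  unfold okl
  have hr := pt_nms A hx hl
  refine PolyTime.all (f := fun c j => decide (((nms A (x c) (l c)).filter
    fun v => decide (h c v = j)).length ≤ t c)) (by fun_prop) ?_
  have hr' : PolyTime fun z : γ × ℕ => nms A (x z.1) (l z.1) :=
    PolyTime.comp (g := fun c => nms A (x c) (l c)) hr (by fun_prop)
  refine PolyTime.decide_le (PolyTime.length ?_) (by fun_prop)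
  refine PolyTime.filter (f := fun (z : γ × ℕ) v => decide (h z.1 v = z.2)) hr' ?_
  have h2 : PolyTime fun y : (γ × ℕ) × ℕ => h y.1.1 y.2 :=
    PolyTime.comp (g := fun z : γ × ℕ => h z.1 z.2) (f := fun y : (γ × ℕ) × ℕ => (y.1.1, y.2)) hh
      (by fun_prop)
  exact PolyTime.decide_eq h2 (by fun_prop)

theorem pt_msize {M : γ → Mem} (hM : PolyTime M) : PolyTime fun c => msize (M c) := by
  unfold msize
  refine PolyTime.sum ?_
  exact PolyTime.list_map (f := fun (_ : γ) (e : ℕ × List Bool) => e.2.length) hM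
    (PolyTime.length (by fun_prop))

/-! ### The run as an iteration -/

/-- The state of the run: the number of the stage, the memory, and the result so far. -/
abbrev St := ℕ × Mem × Option Bool

/-- One stage. -/
def stg (c K t : ℕ) (x : List Bool) (h : ℕ → ℕ) (b : ℕ → Bool) (s : St) : St :=
  if s.2.2.isSome = true then s
  else if okl A x K t h (litm A x s.2.1 ++
      lit A x s.1 s.2.1 (bits A x b s.1 s.2.1 (bd c x))) = false then (s.1 + 1, s.2.1, none)
  else if A.act (x, s.1, s.2.1, bits A x b s.1 s.2.1 (bd c x)) = 1 then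
    (s.1, s.2.1, some false)
  else if A.act (x, s.1, s.2.1, bits A x b s.1 s.2.1 (bd c x)) = 2 then
    (s.1, s.2.1, some true)
  else if A.act (x, s.1, s.2.1, bits A x b s.1 s.2.1 (bd c x)) = 3 ∧
      msize s.2.1 + (bits A x b s.1 s.2.1 (bd c x)).length ≤ bd c x then
    (s.1 + 1, s.2.1 ++ [(s.1, bits A x b s.1 s.2.1 (bd c x))], none)
  else (s.1 + 1, s.2.1, none)

theorem iter_some (c K t : ℕ) (x : List Bool) (h : ℕ → ℕ) (b : ℕ → Bool) (i : ℕ) (M : Mem)
    (r : Bool) (n : ℕ) : (stg A c K t x h b)^[n] (i, M, some r) = (i, M, some r) := by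
  induction n with
  | zero => rfl
  | succ n ih =>
    rw [Function.iterate_succ_apply]
    have : stg A c K t x h b (i, M, some r) = (i, M, some r) := by
      simp [stg]
    rw [this, ih]

theorem runK_eq (c K t : ℕ) (x : List Bool) (h : ℕ → ℕ) (b : ℕ → Bool) (n : ℕ) :
    ∀ (i : ℕ) (M : Mem), runK A x c K t h b n i M =
      ((stg A c K t x h b)^[n] (i, M, none)).2.2.getD false := by
  induction n with
  | zero => intro i M; rfl
  | succ n ih =>
    intro i M
    rw [Function.iterate_succ_apply, runK]
    have hs : stg A c K t x h b (i, M, none) =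
        if okl A x K t h (litm A x M ++
            lit A x i M (bits A x b i M (bd c x))) = false then (i + 1, M, none)
        else if A.act (x, i, M, bits A x b i M (bd c x)) = 1 then (i, M, some false)
        else if A.act (x, i, M, bits A x b i M (bd c x)) = 2 then (i, M, some true)
        else if A.act (x, i, M, bits A x b i M (bd c x)) = 3 ∧
            msize M + (bits A x b i M (bd c x)).length ≤ bd c x then
          (i + 1, M ++ [(i, bits A x b i M (bd c x))], none)
        else (i + 1, M, none) := by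
      rw [stg, if_neg (by simp)]
    rw [hs]
    split_ifs with h1 h2 h3 h4
    · exact ih _ _
    · rw [iter_some]; rfl
    · rw [iter_some]; rfl
    · exact ih _ _
    · exact ih _ _

/-- What holds for all states which occur. -/
def Inv (c : ℕ) (x : List Bool) (k : ℕ) (s : St) : Prop :=
  s.1 ≤ k ∧ s.2.1.length ≤ k ∧ (∀ e ∈ s.2.1, e.1 ≤ k ∧ e.2.length ≤ bd c x)

theorem inv_stg (c K t : ℕ) (x : List Bool) (h : ℕ → ℕ) (b : ℕ → Bool) (k : ℕ) (s : St)
    (hs : Inv c x k s) : Inv c x (k + 1) (stg A c K t x h b s) := by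
  obtain ⟨h1, h2, h3⟩ := hs
  have h3' : ∀ e ∈ s.2.1, e.1 ≤ k + 1 ∧ e.2.length ≤ bd c x := fun e he =>
    ⟨(h3 e he).1.trans (Nat.le_succ k), (h3 e he).2⟩
  unfold stg
  split_ifs
  · exact ⟨by omega, by omega, h3'⟩
  · exact ⟨by simp only; omega, by simp only; omega, h3'⟩
  · exact ⟨by simp only; omega, by simp only; omega, h3'⟩
  · exact ⟨by simp only; omega, by simp only; omega, h3'⟩
  · refine ⟨by simp only; omega, ?_, ?_⟩
    · simp only [List.length_append, List.length_singleton]
      omega
    · intro e he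
      simp only [List.mem_append, List.mem_singleton] at he
      rcases he with he | he
      · exact h3' e he
      · subst he
        exact ⟨by simp only; omega, length_bits A _ _ _ _ _⟩
  · exact ⟨by simp only; omega, by simp only; omega, h3'⟩

theorem inv_iter (c K t : ℕ) (x : List Bool) (h : ℕ → ℕ) (b : ℕ → Bool) (k : ℕ) :
    Inv c x k ((stg A c K t x h b)^[k] (0, [], none)) := by
  induction k with
  | zero => exact ⟨le_rfl, le_rfl, by simp⟩
  | succ k ih =>
    rw [Function.iterate_succ_apply']
    exact inv_stg A c K t x h b k _ ih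

theorem sz_inv (c : ℕ) (x : List Bool) (k n : ℕ) (hkn : k ≤ n) (s : St) (hs : Inv c x k s) :
    sz s ≤ (2 * n + 1) + (n * ((2 * n + 1) + (4 * bd c x + 1) + 1 + 1) + 1) + 7 := by
  obtain ⟨h1, h2, h3⟩ := hs
  obtain ⟨i, M, o⟩ := s
  simp only at h1 h2 h3
  have h4 : sz M ≤ M.length * ((2 * n + 1) + (4 * bd c x + 1) + 1 + 1) + 1 := by
    refine Pool.Agent.Helper51.ZP.sz_list_le _ M fun e he => ?_
    obtain ⟨j, a⟩ := e
    have h5 := h3 _ he
    have h6 := sz_bools a
    simp only at h5
    rw [sz_pair, sz_nat]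
    omega
  have h7 : M.length * ((2 * n + 1) + (4 * bd c x + 1) + 1 + 1) ≤
      n * ((2 * n + 1) + (4 * bd c x + 1) + 1 + 1) :=
    Nat.mul_le_mul_right _ (h2.trans hkn)
  have h8 : sz o ≤ 5 := by
    cases o with
    | none => simp
    | some r =>
      have := sz_bool r
      rw [sz_some]
      omega
  rw [sz_pair, sz_pair, sz_nat]
  omega

theorem pt_stg {x : γ → List Bool} {K t : γ → ℕ} {h : γ → ℕ → ℕ} {b : γ → ℕ → Bool} (k : ℕ)
    {s : γ → St} (hx : PolyTime x) (hK : PolyTime K) (ht : PolyTime t)
    (hh : PolyTime (fun z : γ × ℕ => h z.1 z.2)) (hb : PolyTime (fun z : γ × ℕ => b z.1 z.2))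
    (hs : PolyTime s) :
    PolyTime fun c => stg A k (K c) (t c) (x c) (h c) (b c) (s c) := by
  have hi : PolyTime fun c => (s c).1 := PolyTime.fst hs
  have hM : PolyTime fun c => (s c).2.1 := PolyTime.fst (PolyTime.snd hs)
  have ho : PolyTime fun c => (s c).2.2 := PolyTime.snd (PolyTime.snd hs)
  have hbd : PolyTime fun c => bd k (x c) := pt_bd k hx
  have hbits : PolyTime fun c => bits A (x c) (b c) (s c).1 (s c).2.1 (bd k (x c)) :=
    pt_bits A hx hb hi hM hbd
  have hact : PolyTime fun c => A.act (x c, (s c).1, (s c).2.1,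
      bits A (x c) (b c) (s c).1 (s c).2.1 (bd k (x c))) :=
    pt_act' A hx hi hM hbits
  have hok : PolyTime fun c => okl A (x c) (K c) (t c) (h c) (litm A (x c) (s c).2.1 ++
      lit A (x c) (s c).1 (s c).2.1 (bits A (x c) (b c) (s c).1 (s c).2.1 (bd k (x c)))) :=
    pt_okl A hx hK ht hh (PolyTime.append (pt_litm A hx hM) (pt_lit A hx hi hM hbits))
  have hms : PolyTime fun c => msize (s c).2.1 := pt_msize hM
  have hlen : PolyTime fun c =>
      (bits A (x c) (b c) (s c).1 (s c).2.1 (bd k (x c))).length := PolyTime.length hbits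
  unfold stg
  refine PolyTime.itep (PolyTime.decide_eq (PolyTime.isSome ho) (by fun_prop)) hs ?_
  refine PolyTime.itep (PolyTime.decide_eq hok (by fun_prop)) (by fun_prop) ?_
  refine PolyTime.itep (PolyTime.decide_eq hact (by fun_prop)) (by fun_prop) ?_
  refine PolyTime.itep (PolyTime.decide_eq hact (by fun_prop)) (by fun_prop) ?_
  refine PolyTime.itep (PolyTime.decide_and (PolyTime.decide_eq hact (by fun_prop))
    (PolyTime.decide_le (PolyTime.add hms hlen) hbd)) ?_ (by fun_prop)
  refine PolyTime.pair (by fun_prop) (PolyTime.pair (PolyTime.append hM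
    (PolyTime.list_cons (PolyTime.pair hi hbits) (by fun_prop))) (by fun_prop))

theorem ptm : PtmStmt := by
  intro A k γ _ x K t h b hx hK ht hh hb
  have hT : PolyTime fun c => A.T (x c) := PolyTime.comp (pt_T A) hx
  have hbd : PolyTime fun c => bd k (x c) := pt_bd k hx
  have h1 : PolyTime fun c =>
      (stg A k (K c) (t c) (x c) (h c) (b c))^[A.T (x c)] (0, [], none) := by
    refine PolyTime.iterate_bd (n := fun c => A.T (x c)) (s0 := fun _ => ((0, [], none) : St))
      (step := fun c s => stg A k (K c) (t c) (x c) (h c) (b c) s) hT (by fun_prop) ?_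
      (B := fun c => (2 * A.T (x c) + 1) + (A.T (x c) * ((2 * A.T (x c) + 1) +
        (4 * bd k (x c) + 1) + 1 + 1) + 1) + 7) (PBd.nat (by fun_prop)) ?_
    · refine pt_stg A (γ := γ × St) (x := fun z => x z.1) (K := fun z => K z.1)
        (t := fun z => t z.1) (h := fun z => h z.1) (b := fun z => b z.1) k
        (s := fun z => z.2) (by fun_prop) (by fun_prop) (by fun_prop) ?_ ?_ (by fun_prop)
      · exact PolyTime.comp (g := fun z : γ × ℕ => h z.1 z.2)
          (f := fun y : (γ × St) × ℕ => (y.1.1, y.2)) hh (by fun_prop)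
      · exact PolyTime.comp (g := fun z : γ × ℕ => b z.1 z.2)
          (f := fun y : (γ × St) × ℕ => (y.1.1, y.2)) hb (by fun_prop)
    · intro c j hj
      exact sz_inv k (x c) j (A.T (x c)) hj _ (inv_iter A k (K c) (t c) (x c) (h c) (b c) j)
  have h2 : PolyTime fun c => ((stg A k (K c) (t c) (x c) (h c) (b c))^[A.T (x c)]
      (0, [], none)).2.2 := PolyTime.snd (PolyTime.snd h1)
  have h3 : PolyTime fun c => ((stg A k (K c) (t c) (x c) (h c) (b c))^[A.T (x c)]
      (0, [], none)).2.2.getD false := PolyTime.option_getD h2 (by fun_prop)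
  exact PolyTime.congr h3 fun c => (runK_eq A k (K c) (t c) (x c) (h c) (b c) _ 0 []).symm

end Pool.Agent.Helper16.AO
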